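import Pool.Agent.H14.AVR.Stmts

/-!
# Project AVR: the algebra `K[X] / cub` and the functional `tau` (used by INJ and CHP)
-/

set_option autoImplicit false

open Polynomial Matrix

namespace Pool.AVR.COR

variable {K : Type} [Field K] (a b c : K)

theorem cub_monic : (cub a b c).Monic := by
  unfold cub
  monicity!

theorem cub_natDegree : (cub a b c).natDegree = 3 := by
  unfold cub
  compute_degree!

theorem cub_degree : (cub a b c).degree = 3 := by
  rw [degree_eq_natDegree (cub_monic a b c).ne_zero, cub_natDegree]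
  rfl

/-- the algebra -/
abbrev L : Type := AdjoinRoot (cub a b c)

noncomputable instance : Algebra K (L a b c) := inferInstance

/-- the functional `tau` on the quotient -/
noncomputable def T : L a b c →ₗ[K] K :=
  (Polynomial.lcoeff K 2).comp (AdjoinRoot.modByMonicHom (cub_monic a b c))

theorem T_mk (p : K[X]) : T a b c (AdjoinRoot.mk _ p) = tau a b c p := by
  simp [T, tau]

theorem tau_of_lt (p : K[X]) (h : p.degree < 3) : tau a b c p = p.coeff 2 := by
  rw [tau, (modByMonic_eq_self_iff (cub_monic a b c)).2 (by rw [cub_degree]; exact h)]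

theorem nondeg (ξ : L a b c) (h : ∀ z, T a b c (z * ξ) = 0) : ξ = 0 := by
  obtain ⟨q, rfl⟩ := AdjoinRoot.mk_surjective ξ
  set p := q %ₘ cub a b c with hp
  have hmk : (AdjoinRoot.mk (cub a b c)) q = AdjoinRoot.mk _ p := by
    rw [hp]
    have := AdjoinRoot.mk_leftInverse (cub_monic a b c) (AdjoinRoot.mk _ q)
    rw [AdjoinRoot.modByMonicHom_mk] at this
    exact this.symm
  have hd : p.degree < 3 := by
    rw [hp, ← cub_degree a b c]
    exact degree_modByMonic_lt _ (cub_monic a b c)
  rw [hmk] at h ⊢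
  have h2 : p.coeff 2 = 0 := by
    have := h 1
    rwa [one_mul, T_mk, tau_of_lt a b c p hd] at this
  have hn : ∀ m : ℕ, 3 ≤ m → p.coeff m = 0 := fun m hm =>
    coeff_eq_zero_of_degree_lt (hd.trans_le (by exact_mod_cast hm))
  have hd1 : (X * p).degree < 3 := by
    refine (degree_lt_iff_coeff_zero (X * p) 3).2 ?_
    intro m hm
    obtain ⟨k, rfl⟩ : ∃ k, m = k + 1 := ⟨m - 1, by omega⟩
    rw [coeff_X_mul]
    rcases Nat.lt_or_ge k 3 with hk | hk
    · have : k = 2 := by omega
      rw [this, h2]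
    · exact hn k hk
  have h1 : p.coeff 1 = 0 := by
    have := h (AdjoinRoot.mk _ X)
    rwa [← map_mul, T_mk, tau_of_lt a b c _ hd1, coeff_X_mul] at this
  have hd0 : (X * (X * p)).degree < 3 := by
    refine (degree_lt_iff_coeff_zero (X * (X * p)) 3).2 ?_
    intro m hm
    obtain ⟨k, rfl⟩ : ∃ k, m = k + 2 := ⟨m - 2, by omega⟩
    rw [coeff_X_mul, coeff_X_mul]
    rcases Nat.lt_or_ge k 3 with hk | hk
    · interval_cases k
      · omega
      · exact h1
      · exact h2
    · exact hn k hk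
  have h0 : p.coeff 0 = 0 := by
    have := h (AdjoinRoot.mk _ (X * X))
    rwa [← map_mul, T_mk, mul_assoc, tau_of_lt a b c _ hd0, coeff_X_mul, coeff_X_mul] at this
  have : p = 0 := by
    ext m
    rw [coeff_zero]
    rcases Nat.lt_or_ge m 3 with hk | hk
    · interval_cases m
      · exact h0
      · exact h1
      · exact h2
    · exact hn m hk
  rw [this, map_zero]

theorem finrank_L : Module.finrank K (L a b c) = 3 := by
  rw [(AdjoinRoot.powerBasis' (cub_monic a b c)).finrank, AdjoinRoot.powerBasis'_dim,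
    cub_natDegree]

theorem li (ε : Fin 3 → L a b c) (η : L a b c)
    (h : ∀ i j, T a b c (ε i * ε j * η) = AA K i j) : LinearIndependent K ε := by
  rw [Fintype.linearIndependent_iff]
  intro g hg
  have key : ∀ j, ∑ i, g i * AA K i j = 0 := by
    intro j
    have h1 : T a b c ((∑ i, g i • ε i) * (ε j * η)) = 0 := by
      rw [hg, zero_mul, map_zero]
    rw [Finset.sum_mul, map_sum] at h1
    rw [← h1]
    refine Finset.sum_congr rfl fun i _ => ?_
    rw [smul_mul_assoc, map_smul, smul_eq_mul, ← mul_assoc, h]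
  have k0 := key 0
  have k1 := key 1
  have k2 := key 2
  simp [AA, Fin.sum_univ_three] at k0 k1 k2
  intro i
  fin_cases i
  · exact k2
  · exact k1
  · exact k0

/-- the basis -/
noncomputable def bas (ε : Fin 3 → L a b c) (η : L a b c)
    (h : ∀ i j, T a b c (ε i * ε j * η) = AA K i j) : Module.Basis (Fin 3) K (L a b c) :=
  basisOfLinearIndependentOfCardEqFinrank (li a b c ε η h) (by
    rw [finrank_L]
    rfl)

theorem bas_apply (ε : Fin 3 → L a b c) (η : L a b c)
    (h : ∀ i j, T a b c (ε i * ε j * η) = AA K i j) (i : Fin 3) :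
    bas a b c ε η h i = ε i := by
  simp [bas]

theorem leftMul (ε : Fin 3 → L a b c) (η : L a b c)
    (h : ∀ i j, T a b c (ε i * ε j * η) = AA K i j) (B : Matrix (Fin 3) (Fin 3) K)
    (hB : ∀ i j, T a b c (AdjoinRoot.root _ * (ε i * ε j * η)) = B i j) :
    Algebra.leftMulMatrix (bas a b c ε η h) (AdjoinRoot.root _) = AA K * B := by
  set bb := bas a b c ε η h with hbb
  set M := Algebra.leftMulMatrix bb (AdjoinRoot.root (cub a b c)) with hM
  have h1 : ∀ j, AdjoinRoot.root (cub a b c) * ε j = ∑ i, M i j • ε i := by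
    intro j
    have := bb.sum_repr (AdjoinRoot.root (cub a b c) * bb j)
    rw [hbb, bas_apply] at this
    rw [← this]
    refine Finset.sum_congr rfl fun i _ => ?_
    rw [bas_apply, hM, Algebra.leftMulMatrix_eq_repr_mul, hbb, bas_apply]
  have key : ∀ k j, B k j = ∑ i, M i j * AA K i k := by
    intro k j
    rw [← hB k j]
    have h2 : AdjoinRoot.root (cub a b c) * (ε k * ε j * η) =
        (AdjoinRoot.root (cub a b c) * ε j) * (ε k * η) := by ring
    rw [h2, h1, Finset.sum_mul, map_sum]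
    refine Finset.sum_congr rfl fun i _ => ?_
    rw [smul_mul_assoc, map_smul, smul_eq_mul, ← mul_assoc, h]
  ext i j
  have k0 := key 0 j
  have k1 := key 1 j
  have k2 := key 2 j
  simp [AA, Fin.sum_univ_three] at k0 k1 k2
  fin_cases i
  · simp [AA, Matrix.mul_apply, Fin.sum_univ_three, k2]
  · simp [AA, Matrix.mul_apply, Fin.sum_univ_three, k1]
  · simp [AA, Matrix.mul_apply, Fin.sum_univ_three, k0]

/-- the polynomial `hh` is the inverse of `x - X` -/
theorem hh_inv (x y : K) (hc : OnC a b c x y) (hy : y ≠ 0) :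
    (AdjoinRoot.mk (cub a b c)) (C x - X) * (AdjoinRoot.mk (cub a b c)) (hh a b x y) = 1 := by
  rw [← map_mul, ← map_one (AdjoinRoot.mk (cub a b c)), AdjoinRoot.mk_eq_mk]
  refine ⟨-C ((y ^ 2)⁻¹), ?_⟩
  have h1 : C ((y ^ 2)⁻¹) * C (y ^ 2) = (1 : K[X]) := by
    rw [← C_mul, inv_mul_cancel₀ (pow_ne_zero 2 hy), C_1]
  have h2 : C (y ^ 2) = C x ^ 3 + C a * C x ^ 2 + C b * C x + (C c : K[X]) := by
    have := hc
    unfold OnC at this
    rw [this]
    simp only [C_add, C_mul, C_pow]
  rw [← h1, h2]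
  simp only [hh, cub, C_add, C_mul, C_pow]
  ring

theorem rep_mk (x y : K) (G B : Matrix (Fin 3) (Fin 3) K) (h : Rep a b c x y G B) :
    ∃ ε : Fin 3 → L a b c,
      (∀ i j, T a b c (ε i * ε j * AdjoinRoot.mk _ (hh a b x y)) = G i j) ∧
      ∀ i j, T a b c (AdjoinRoot.root _ * (ε i * ε j * AdjoinRoot.mk _ (hh a b x y))) = B i j := by
  obtain ⟨e, h1, h2⟩ := h
  refine ⟨fun i => AdjoinRoot.mk _ (e i), fun i j => ?_, fun i j => ?_⟩
  · rw [← map_mul, ← map_mul, T_mk, h1]
  · rw [← map_mul, ← map_mul, ← AdjoinRoot.mk_X, ← map_mul, T_mk, h2]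

end Pool.AVR.COR
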