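import Pool.Agent.H33.AVR.COR

/-!
# Project AVR, module CHP: the characteristic polynomial
-/

set_option autoImplicit false

open Polynomial Matrix

namespace Pool.AVR

theorem chp_thm : CHPStmt := by
  intro K _ a b c x y _ _ B hR
  obtain ⟨ε, h1, h2⟩ := COR.rep_mk a b c x y _ _ hR
  rw [← COR.leftMul a b c ε _ h1 B h2]
  have : Module.Finite K (COR.L a b c) := (AdjoinRoot.powerBasis' (COR.cub_monic a b c)).finite
  have : Module.Free K (COR.L a b c) :=
    Module.Free.of_basis (AdjoinRoot.powerBasis' (COR.cub_monic a b c)).basis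
  have h3 := (Algebra.lmul K (COR.L a b c) (AdjoinRoot.root (cub a b c))).charpoly_toMatrix
    (COR.bas a b c ε _ h1)
  have h4 := (Algebra.lmul K (COR.L a b c) (AdjoinRoot.root (cub a b c))).charpoly_toMatrix
    (AdjoinRoot.powerBasis' (COR.cub_monic a b c)).basis
  have h5 := charpoly_leftMulMatrix (AdjoinRoot.powerBasis' (COR.cub_monic a b c))
  rw [AdjoinRoot.powerBasis'_gen] at h5
  have h6 : Algebra.leftMulMatrix (COR.bas a b c ε _ h1) (AdjoinRoot.root (cub a b c)) =
      LinearMap.toMatrix (COR.bas a b c ε _ h1) (COR.bas a b c ε _ h1)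
        (Algebra.lmul K (COR.L a b c) (AdjoinRoot.root (cub a b c))) := rfl
  have h7 : Algebra.leftMulMatrix (AdjoinRoot.powerBasis' (COR.cub_monic a b c)).basis
      (AdjoinRoot.root (cub a b c)) =
      LinearMap.toMatrix (AdjoinRoot.powerBasis' (COR.cub_monic a b c)).basis
        (AdjoinRoot.powerBasis' (COR.cub_monic a b c)).basis
        (Algebra.lmul K (COR.L a b c) (AdjoinRoot.root (cub a b c))) := rfl
  rw [h6, h3, ← h4, ← h7, h5, AdjoinRoot.minpoly_root (COR.cub_monic a b c).ne_zero,
    (COR.cub_monic a b c).leadingCoeff, inv_one, C_1, mul_one]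

end Pool.AVR
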