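import Pool.Agent.H14.AVR.Stmts4
import Pool.Agent.H29.AVR.Common

set_option autoImplicit false

namespace Pool.AVR

namespace DE5

open Pool.AVR.H29

theorem isUnit_of_mul_add {R : Type} [CommRing R] {ϖ : R} {x y : R}
    (hx : ϖ ∣ x) (hxy : x + y = 0) : ϖ ∣ y := by
  have : y = -x := by linear_combination hxy
  rw [this]
  exact (dvd_neg).2 hx

theorem count2 {R : Type} [CommRing R] [Finite R] {ϖ : R} (h : Len2 R ϖ)
    (h2 : IsUnit (2 : R)) (h3 : IsUnit (3 : R)) :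
    ({p : R × R | 4 * p.1 ^ 3 + 27 * p.2 ^ 2 = 0}).ncard ≤ 2 * res ϖ ^ 2 := by
  have h4 : IsUnit (4 : R) := by
    have : (4 : R) = 2 * 2 := by norm_num
    rw [this]
    exact h2.mul h2
  have h27 : IsUnit (27 : R) := by
    have : (27 : R) = 3 * 3 * 3 := by norm_num
    rw [this]
    exact (h3.mul h3).mul h3
  set Z : Set (R × R) := {p : R × R | 4 * p.1 ^ 3 + 27 * p.2 ^ 2 = 0} with hZ
  have hsplit : Z ⊆ ({x : R | ϖ ∣ x} ×ˢ {x : R | ϖ ∣ x}) ∪ {p ∈ Z | IsUnit p.1} := by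
    intro p hp
    by_cases hu : IsUnit p.1
    · exact Or.inr ⟨hp, hu⟩
    · left
      have hb : ϖ ∣ p.1 := dvd_of_not_unit h hu
      refine ⟨hb, ?_⟩
      show ϖ ∣ p.2
      by_contra hc
      have hc' : IsUnit p.2 := (h.unit p.2).resolve_right hc
      have e1 : IsUnit (27 * p.2 ^ 2) := h27.mul (hc'.pow 2)
      have e2 : ϖ ∣ 27 * p.2 ^ 2 := by
        have hp' : 4 * p.1 ^ 3 + 27 * p.2 ^ 2 = 0 := hp
        apply isUnit_of_mul_add (x := 4 * p.1 ^ 3) _ hp'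
        exact (dvd_pow hb (by norm_num)).mul_left _
      exact not_unit_of_dvd h e2 e1
  have c1 : ({x : R | ϖ ∣ x} ×ˢ {x : R | ϖ ∣ x}).ncard = res ϖ ^ 2 := by
    rw [Set.ncard_prod, card_span h]
    ring
  have c2 : ({p ∈ Z | IsUnit p.1}).ncard ≤ res ϖ ^ 2 := by
    rw [← card_ring h, ← Set.ncard_univ]
    apply Set.ncard_le_ncard_of_injOn (fun p : R × R => p.2 * Ring.inverse p.1)
    · intro p _
      exact Set.mem_univ _
    · intro p hp p' hp' he
      have he' : p.2 * Ring.inverse p.1 = p'.2 * Ring.inverse p'.1 := he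
      have key : ∀ p : R × R, 4 * p.1 ^ 3 + 27 * p.2 ^ 2 = 0 → IsUnit p.1 →
          4 * p.1 = -27 * (p.2 * Ring.inverse p.1) ^ 2 ∧
          p.2 = (p.2 * Ring.inverse p.1) * p.1 := by
        intro p hp hu
        have hi : p.1 * Ring.inverse p.1 = 1 := Ring.mul_inverse_cancel _ hu
        constructor
        · have e : 4 * p.1 ^ 3 = - 27 * p.2 ^ 2 := by linear_combination hp
          calc 4 * p.1 = 4 * p.1 ^ 3 * Ring.inverse p.1 ^ 2 := by
                linear_combination (-4 * p.1 * (p.1 * Ring.inverse p.1 + 1)) * hi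
            _ = -27 * (p.2 * Ring.inverse p.1) ^ 2 := by rw [e]; ring
        · linear_combination (-p.2) * hi
      obtain ⟨k1, k2⟩ := key p hp.1 hp.2
      obtain ⟨k1', k2'⟩ := key p' hp'.1 hp'.2
      rw [he'] at k1 k2
      have e1 : p.1 = p'.1 := by
        apply h4.mul_left_cancel
        rw [k1, k1']
      have e2 : p.2 = p'.2 := by
        rw [k2, e1]
        exact k2'.symm
      exact Prod.ext e1 e2
  calc Z.ncard ≤ (({x : R | ϖ ∣ x} ×ˢ {x : R | ϖ ∣ x}) ∪ {p ∈ Z | IsUnit p.1}).ncard :=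
        Set.ncard_le_ncard hsplit (Set.toFinite _)
    _ ≤ ({x : R | ϖ ∣ x} ×ˢ {x : R | ϖ ∣ x}).ncard + ({p ∈ Z | IsUnit p.1}).ncard :=
        Set.ncard_union_le _ _
    _ ≤ res ϖ ^ 2 + res ϖ ^ 2 := by rw [c1]; exact Nat.add_le_add_left c2 _
    _ = 2 * res ϖ ^ 2 := by ring

theorem count3 {R : Type} [CommRing R] [Finite R] {ϖ : R} (h : Len2 R ϖ)
    (h2 : IsUnit (2 : R)) (h3 : IsUnit (3 : R)) :
    ({t : R × R × R | disc t.1 t.2.1 t.2.2 = 0}).ncard ≤ 2 * res ϖ ^ 4 := by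
  obtain ⟨i3, hi3⟩ := h3.exists_right_inv
  have hle : ({t : R × R × R | disc t.1 t.2.1 t.2.2 = 0}).ncard ≤
      ((Set.univ : Set R) ×ˢ {p : R × R | 4 * p.1 ^ 3 + 27 * p.2 ^ 2 = 0}).ncard := by
    apply Set.ncard_le_ncard_of_injOn (fun t : R × R × R =>
      (t.1, (t.2.1 - 3 * (i3 * t.1) ^ 2, t.2.2 - (i3 * t.1) * t.2.1 + 2 * (i3 * t.1) ^ 3)))
    · intro t ht
      refine ⟨Set.mem_univ _, ?_⟩
      have ht' : disc t.1 t.2.1 t.2.2 = 0 := ht
      show 4 * (t.2.1 - 3 * (i3 * t.1) ^ 2) ^ 3 +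
        27 * (t.2.2 - (i3 * t.1) * t.2.1 + 2 * (i3 * t.1) ^ 3) ^ 2 = 0
      have ha : t.1 = 3 * (i3 * t.1) := by linear_combination (-t.1) * hi3
      have hd : disc (3 * (i3 * t.1)) t.2.1 t.2.2 = 0 := by rw [← ha]; exact ht'
      unfold disc at hd
      linear_combination (-1) * hd
    · intro t _ t' _ he
      simp only [Prod.mk.injEq] at he
      obtain ⟨e1, e2, e3⟩ := he
      have f2 : t.2.1 = t'.2.1 := by
        rw [e1] at e2
        linear_combination e2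
      have f3 : t.2.2 = t'.2.2 := by
        rw [e1, f2] at e3
        linear_combination e3
      exact Prod.ext e1 (Prod.ext f2 f3)
  refine hle.trans ?_
  rw [Set.ncard_prod, Set.ncard_univ, card_ring h]
  calc res ϖ ^ 2 * _ ≤ res ϖ ^ 2 * (2 * res ϖ ^ 2) := Nat.mul_le_mul_left _ (count2 h h2 h3)
    _ = 2 * res ϖ ^ 4 := by ring

end DE5

open Pool.AVR.H29 in
theorem de5_thm : DE5Stmt := by
  intro R _ _ ϖ h h2 h3
  have hr : (0 : ℝ) < (res ϖ : ℝ) := by exact_mod_cast res_pos h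
  have hc := DE5.count3 h h2 h3
  have hcompl : ({t : R × R × R | disc t.1 t.2.1 t.2.2 ≠ 0}).ncard =
      Nat.card (R × R × R) - ({t : R × R × R | disc t.1 t.2.1 t.2.2 = 0}).ncard := by
    rw [← Set.ncard_compl]
    rfl
  have hcard : Nat.card (R × R × R) = res ϖ ^ 6 := by
    rw [Nat.card_prod, Nat.card_prod, card_ring h]
    ring
  have hle : ({t : R × R × R | disc t.1 t.2.1 t.2.2 = 0}).ncard ≤ Nat.card (R × R × R) := by
    rw [← Set.ncard_univ]
    exact Set.ncard_le_ncard (Set.subset_univ _) (Set.toFinite _)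
  unfold dens
  rw [hcompl, Nat.cast_sub hle, hcard, card_ring h]
  push_cast
  have hc' : (({t : R × R × R | disc t.1 t.2.1 t.2.2 = 0}).ncard : ℝ) ≤ 2 * (res ϖ : ℝ) ^ 4 := by
    exact_mod_cast hc
  rw [le_div_iff₀ (by positivity)]
  have e : (1 - 2 / (res ϖ : ℝ) ^ 2) * ((res ϖ : ℝ) ^ 2) ^ 3 =
      (res ϖ : ℝ) ^ 6 - 2 * (res ϖ : ℝ) ^ 4 := by
    field_simp
  rw [e]
  linarith

end Pool.AVR
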