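import Pool.Agent.H14.AVR.Stmts2

/-!
# Project AVR, module RED: matrices with a reducible characteristic polynomial are rare
-/

set_option autoImplicit false

open Polynomial Matrix

namespace Pool.AVR

namespace REDaux

/-- symmetric matrices -/
def symE (R : Type) : {B : Matrix (Fin 3) (Fin 3) R // Bᵀ = B} ≃ (Fin 6 → R) where
  toFun B := ![B.1 0 0, B.1 0 1, B.1 0 2, B.1 1 1, B.1 1 2, B.1 2 2]
  invFun v := ⟨!![v 0, v 1, v 2; v 1, v 3, v 4; v 2, v 4, v 5], by
    ext i j
    fin_cases i <;> fin_cases j <;> rfl⟩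
  left_inv B := by
    have h : ∀ i j, B.1 i j = B.1 j i := fun i j => by
      conv_lhs => rw [← B.2]
      rfl
    apply Subtype.ext
    ext i j
    fin_cases i <;> fin_cases j <;> first | rfl | exact h _ _
  right_inv v := by
    ext i
    fin_cases i <;> rfl

theorem card_sym (R : Type) :
    Nat.card {B : Matrix (Fin 3) (Fin 3) R // Bᵀ = B} = Nat.card R ^ 6 := by
  rw [Nat.card_congr (symE R), Nat.card_fun]
  simp

theorem ncard_sym (R : Type) :
    {B : Matrix (Fin 3) (Fin 3) R | Bᵀ = B}.ncard = Nat.card R ^ 6 := by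
  rw [← card_sym R]
  rfl

theorem cub_monic {R : Type} [CommRing R] (a b c : R) : (cub a b c).Monic := by
  unfold cub
  monicity!

theorem cub_natDegree {R : Type} [CommRing R] [Nontrivial R] (a b c : R) :
    (cub a b c).natDegree = 3 := by
  unfold cub
  compute_degree!

theorem cub_inj {R : Type} [CommRing R] {a b c a' b' c' : R} (h : cub a b c = cub a' b' c') :
    a = a' ∧ b = b' ∧ c = c' := by
  have h2 := congrArg (fun p : R[X] => p.coeff 2) h
  have h1 := congrArg (fun p : R[X] => p.coeff 1) h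
  have h0 := congrArg (fun p : R[X] => p.coeff 0) h
  simp [cub, coeff_X, coeff_C] at h2 h1 h0
  exact ⟨h2, h1, h0⟩

/-- the matrices with a reducible characteristic polynomial -/
def Wk (k : Type) [Field k] : Set (Matrix (Fin 3) (Fin 3) k) :=
  {B | Bᵀ = B ∧ ¬ Irreducible (AA k * B).charpoly}

theorem arith (q T I W : ℕ) (hq : 3 ≤ q) (hT : q ^ 3 - q ≤ 3 * T)
    (hlow : T * (q ^ 2 * (q - 1)) ≤ I) (hsum : W + I = q ^ 6) : 6 * W ≤ 5 * q ^ 6 := by
  obtain ⟨s, rfl⟩ : ∃ s, q = s + 3 := ⟨q - 3, by omega⟩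
  have h4 : (s + 3) ^ 3 ≤ 3 * T + (s + 3) := by omega
  have h5 : s + 3 - 1 = s + 2 := by omega
  rw [h5] at hlow
  have h6 : (s + 3) ^ 3 * ((s + 3) ^ 2 * (s + 2)) ≤
      3 * I + (s + 3) * ((s + 3) ^ 2 * (s + 2)) := by
    calc (s + 3) ^ 3 * ((s + 3) ^ 2 * (s + 2)) ≤
        (3 * T + (s + 3)) * ((s + 3) ^ 2 * (s + 2)) := Nat.mul_le_mul_right _ h4
      _ = 3 * (T * ((s + 3) ^ 2 * (s + 2))) + (s + 3) * ((s + 3) ^ 2 * (s + 2)) := by ring
      _ ≤ 3 * I + (s + 3) * ((s + 3) ^ 2 * (s + 2)) := by omega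
  have h7 : (s + 3) ^ 6 ≤ 6 * I := by
    have h8 : (s + 3) ^ 6 + 2 * ((s + 3) * ((s + 3) ^ 2 * (s + 2))) ≤
        2 * ((s + 3) ^ 3 * ((s + 3) ^ 2 * (s + 2))) := by
      ring_nf
      nlinarith [Nat.zero_le (s ^ 2), Nat.zero_le (s ^ 3), Nat.zero_le (s ^ 4),
        Nat.zero_le (s ^ 5), Nat.zero_le (s ^ 6)]
    omega
  omega

theorem Wk_bound (hL : LDPStmt) (hI : ICBStmt) (k : Type) [Field k] [Finite k]
    (h2 : (2 : k) ≠ 0) : 6 * (Wk k).ncard ≤ 5 * Nat.card k ^ 6 := by
  classical
  have := Fintype.ofFinite k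
  set q := Nat.card k with hq
  have hq3 : 3 ≤ q := by
    have hq2 : 1 < q := Finite.one_lt_card
    rcases Nat.lt_or_ge 2 q with h | h
    · exact h
    · exfalso
      have hqe : q = 2 := by omega
      apply h2
      have h3 : ((Fintype.card k : ℕ) : k) = 0 := Nat.cast_card_eq_zero k
      rw [← Nat.card_eq_fintype_card, ← hq, hqe] at h3
      exact_mod_cast h3
  set Ik : Set (Matrix (Fin 3) (Fin 3) k) := {B | Bᵀ = B ∧ Irreducible (AA k * B).charpoly} with hIk
  have hun : {B : Matrix (Fin 3) (Fin 3) k | Bᵀ = B} = Wk k ∪ Ik := by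
    ext B
    simp only [Set.mem_union, hIk, Wk]
    constructor
    · intro h
      by_cases h' : Irreducible (AA k * B).charpoly
      · exact Or.inr ⟨h, h'⟩
      · exact Or.inl ⟨h, h'⟩
    · rintro (h | h)
      · exact h.1
      · exact h.1
  have hdis : Disjoint (Wk k) Ik := by
    rw [Set.disjoint_left]
    rintro B ⟨_, h⟩ ⟨_, h'⟩
    exact h h'
  have hsum : (Wk k).ncard + Ik.ncard = q ^ 6 := by
    rw [← Set.ncard_union_eq hdis (Set.toFinite _) (Set.toFinite _), ← hun, ncard_sym]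
  -- lower bound for the number of irreducible ones
  set Tk : Set (k × k × k) := {t | Irreducible (cub t.1 t.2.1 t.2.2)} with hTk
  have hT := hI k
  have hlow : Tk.ncard * (q ^ 2 * (q - 1)) ≤ Ik.ncard := by
    set TF : Finset (k × k × k) := Finset.univ.filter (fun t => Irreducible (cub t.1 t.2.1 t.2.2))
      with hTF
    set FF : k × k × k → Finset (Matrix (Fin 3) (Fin 3) k) := fun t =>
      Finset.univ.filter (fun B => Bᵀ = B ∧ (AA k * B).charpoly = cub t.1 t.2.1 t.2.2) with hFF
    have e1 : Tk.ncard = TF.card := by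
      rw [Set.ncard_eq_toFinset_card', hTF]
      congr 1
      ext t
      simp [hTk]
    have e2 : (TF.biUnion FF : Set (Matrix (Fin 3) (Fin 3) k)) ⊆ Ik := by
      intro B hB
      simp only [hTF, hFF, Finset.coe_biUnion, Set.mem_iUnion, Finset.coe_filter,
        Finset.mem_univ, true_and] at hB
      obtain ⟨t, ht, hB1, hB2⟩ := hB
      refine ⟨hB1, ?_⟩
      rw [hB2]
      exact ht
    have e3 : (TF.biUnion FF).card ≤ Ik.ncard := by
      rw [← Set.ncard_coe_finset]
      exact Set.ncard_le_ncard e2 (Set.toFinite _)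
    have e4 : (TF.biUnion FF).card = ∑ t ∈ TF, (FF t).card := by
      refine Finset.card_biUnion fun t _ t' _ htt => ?_
      show Disjoint (FF t) (FF t')
      rw [Finset.disjoint_left]
      intro B hB hB'
      simp only [hFF, Finset.mem_filter, Finset.mem_univ, true_and] at hB hB'
      obtain ⟨h1, h2, h3⟩ := cub_inj (hB.2.symm.trans hB'.2)
      exact htt (Prod.ext h1 (Prod.ext h2 h3))
    have e5 : ∀ t ∈ TF, q ^ 2 * (q - 1) ≤ (FF t).card := by
      intro t ht
      simp only [hTF, Finset.mem_filter, Finset.mem_univ, true_and] at ht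
      refine (hL k h2 t.1 t.2.1 t.2.2 ht).trans (le_of_eq ?_)
      rw [Set.ncard_eq_toFinset_card', hFF]
      congr 1
      ext B
      simp
    rw [e1, ← smul_eq_mul]
    refine (Finset.card_nsmul_le_sum TF (fun t => (FF t).card) _ e5).trans ?_
    rw [← e4]
    exact e3
  exact arith q Tk.ncard Ik.ncard (Wk k).ncard hq3 hT hlow hsum

/-- many irreducible polynomials -/
theorem many_irr (F : Type) [Field F] (k : ℕ) :
    ∃ s : Finset F[X], s.card = k ∧ ∀ p ∈ s, p.Monic ∧ Irreducible p := by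
  classical
  induction k with
  | zero => exact ⟨∅, rfl, by simp⟩
  | succ k ih =>
    obtain ⟨s, hs, h⟩ := ih
    set Q := ∏ p ∈ s, p with hQ
    have hQm : Q.Monic := monic_prod_of_monic s (fun p => p) fun p hp => (h p hp).1
    have hN : ¬ IsUnit (Q * X + 1) := by
      refine not_isUnit_of_natDegree_pos _ ?_
      have h1 : (Q * X + 1).natDegree = Q.natDegree + 1 := by
        rw [natDegree_add_eq_left_of_natDegree_lt, natDegree_mul_X hQm.ne_zero]
        rw [natDegree_mul_X hQm.ne_zero, natDegree_one]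
        omega
      rw [h1]
      omega
    obtain ⟨g, hg1, hg2, hg3⟩ := exists_monic_irreducible_factor _ hN
    have hgs : g ∉ s := by
      intro hg
      have h1 : g ∣ Q := Finset.dvd_prod_of_mem _ hg
      have h2 : g ∣ 1 := by
        have h3 : g ∣ Q * X := h1.mul_right X
        exact (dvd_add_right h3).1 hg3
      exact hg2.not_isUnit (isUnit_of_dvd_one h2)
    refine ⟨insert g s, ?_, ?_⟩
    · rw [Finset.card_insert_of_notMem hgs, hs]
    · intro p hp
      rcases Finset.mem_insert.1 hp with rfl | hp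
      · exact ⟨hg1, hg2⟩
      · exact h p hp

theorem bd_finite (F : Type) [Field F] [Finite F] (n m : ℕ) :
    {B : Matrix (Fin 3) (Fin 3) F[X] | Bd n m B}.Finite := by
  have h1 : (degreeLT F (2 * n + 2 * m + 1) : Set F[X]).Finite := by
    have : Module.Finite F (degreeLT F (2 * n + 2 * m + 1)) :=
      Module.Finite.equiv (degreeLTEquiv F (2 * n + 2 * m + 1)).symm
    have : Finite (degreeLT F (2 * n + 2 * m + 1)) := Module.finite_of_finite F
    exact Set.toFinite _
  have h2 : {B : Matrix (Fin 3) (Fin 3) F[X] |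
      ∀ i, B i ∈ {r : Fin 3 → F[X] | ∀ j, r j ∈ (degreeLT F (2 * n + 2 * m + 1) : Set F[X])}}.Finite :=
    Set.Finite.pi' fun _ => Set.Finite.pi' fun _ => h1
  refine h2.subset ?_
  intro B hB i j
  rw [SetLike.mem_coe, mem_degreeLT]
  by_cases h0 : B i j = 0
  · rw [h0, degree_zero]
    exact WithBot.bot_lt_coe _
  · have h3 := hB.2 i j h0
    have h4 : ∀ i, dd m i ≤ m := by
      intro i
      fin_cases i <;> simp [dd]
    have h5 := h4 i
    have h6 := h4 j
    rw [degree_eq_natDegree h0]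
    have h7 : (B i j).natDegree < 2 * n + 2 * m + 1 := by
      zify
      linarith
    exact_mod_cast h7

end REDaux

open REDaux in
theorem red_thm (hL : LDPStmt) (hI : ICBStmt) (hE : EQBStmt) : REDStmt := by
  classical
  intro F _ _ h2 ε hε
  set q := Nat.card F with hq
  have hq0 : 0 < q := Nat.card_pos
  obtain ⟨k, hk⟩ := exists_pow_lt_of_lt_one hε (show (5 / 6 : ℝ) < 1 by norm_num)
  obtain ⟨s, hs, hirr⟩ := many_irr F k
  set M := ∏ p ∈ s, p with hM
  have hMm : M.Monic := monic_prod_of_monic s (fun p => p) fun p hp => (hirr p hp).1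
  have hMd : M.natDegree = ∑ p ∈ s, p.natDegree := by
    rw [hM]
    exact natDegree_prod_of_monic s (fun p => p) fun p hp => (hirr p hp).1
  refine ⟨M.natDegree + 2, fun n m hnm => ?_⟩
  -- the set modulo `M`
  set W : Set (Matrix (Fin 3) (Fin 3) (AdjoinRoot M)) :=
    {w | ∃ B : Matrix (Fin 3) (Fin 3) F[X], Bᵀ = B ∧ B.map (AdjoinRoot.mk M) = w ∧
      ∀ p ∈ s, ¬ Irreducible (AA _ * B.map (AdjoinRoot.mk p)).charpoly} with hW
  have hWs : ∀ B ∈ W, Bᵀ = B := by
    rintro _ ⟨B, hB, rfl, _⟩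
    rw [← Matrix.transpose_map, hB]
  -- bound of the cardinality
  have hfac : ∀ p : {p // p ∈ s}, Fact (Irreducible p.1) := fun p => ⟨(hirr p.1 p.2).2⟩
  have hfin : ∀ p : {p // p ∈ s}, Finite (AdjoinRoot p.1) := fun p => by
    have : Module.Finite F (AdjoinRoot p.1) :=
      (AdjoinRoot.powerBasis' (hirr p.1 p.2).1).finite
    exact Module.finite_of_finite F
  have hcard : ∀ p : {p // p ∈ s}, Nat.card (AdjoinRoot p.1) = q ^ p.1.natDegree := fun p => by
    have : Module.Finite F (AdjoinRoot p.1) :=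
      (AdjoinRoot.powerBasis' (hirr p.1 p.2).1).finite
    rw [Module.natCard_eq_pow_finrank (K := F),
      (AdjoinRoot.powerBasis' (hirr p.1 p.2).1).finrank, AdjoinRoot.powerBasis'_dim]
  have hWp : ∀ p : {p // p ∈ s}, (6 : ℝ) * ((Wk (AdjoinRoot p.1)).ncard : ℝ) ≤
      5 * (q : ℝ) ^ (6 * p.1.natDegree) := by
    intro p
    have := hfac p
    have := hfin p
    have h2p : (2 : AdjoinRoot p.1) ≠ 0 := by
      have : (algebraMap F (AdjoinRoot p.1)) 2 ≠ 0 := by
        rw [Ne, map_eq_zero]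
        exact h2
      rwa [map_ofNat] at this
    have h3 := Wk_bound hL hI (AdjoinRoot p.1) h2p
    rw [hcard p, ← pow_mul, mul_comm p.1.natDegree 6] at h3
    exact_mod_cast h3
  have hWcard : (W.ncard : ℝ) ≤ (5 / 6) ^ k * (q : ℝ) ^ (6 * M.natDegree) := by
    have hinj : Nat.card W ≤ Nat.card (∀ p : {p // p ∈ s}, Wk (AdjoinRoot p.1)) := by
      have : ∀ p : {p // p ∈ s}, Finite (Wk (AdjoinRoot p.1)) := fun p => by
        have := hfin p
        exact Subtype.finite
      choose β hβ1 hβ2 hβ3 using fun w : W => w.2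
      refine Nat.card_le_card_of_injective
        (fun w p => ⟨(β w).map (AdjoinRoot.mk p.1), ?_, hβ3 w p.1 p.2⟩) ?_
      · rw [← Matrix.transpose_map, hβ1 w]
      · intro w w' hww
        apply Subtype.ext
        rw [← hβ2 w, ← hβ2 w']
        ext i j
        rw [map_apply, map_apply, AdjoinRoot.mk_eq_mk, hM]
        refine Finset.prod_dvd_of_coprime ?_ ?_
        · intro p hp p' hp' hpp
          refine (hirr p hp).2.coprime_iff_not_dvd.2 fun hd => hpp ?_
          exact eq_of_monic_of_associated (hirr p hp).1 (hirr p' hp').1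
            ((hirr p hp).2.associated_of_dvd (hirr p' hp').2 hd)
        · intro p hp
          have h4 := congrFun hww ⟨p, hp⟩
          have h5 := Subtype.ext_iff.1 h4
          have h6 := congrFun (congrFun h5 i) j
          simp only [map_apply] at h6
          exact AdjoinRoot.mk_eq_mk.1 h6
    rw [Nat.card_pi] at hinj
    have h6 : (W.ncard : ℝ) ≤ ∏ p : {p // p ∈ s}, ((Wk (AdjoinRoot p.1)).ncard : ℝ) := by
      have : W.ncard ≤ ∏ p : {p // p ∈ s}, (Wk (AdjoinRoot p.1)).ncard := hinj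
      exact_mod_cast this
    refine h6.trans ?_
    have h7 : ∏ p : {p // p ∈ s}, ((Wk (AdjoinRoot p.1)).ncard : ℝ) ≤
        ∏ p : {p // p ∈ s}, ((5 / 6 : ℝ) * (q : ℝ) ^ (6 * p.1.natDegree)) := by
      refine Finset.prod_le_prod (fun p _ => by positivity) fun p _ => ?_
      have := hWp p
      linarith
    refine h7.trans (le_of_eq ?_)
    rw [Finset.prod_mul_distrib, Finset.prod_const, Finset.card_univ, Fintype.card_coe, hs,
      Finset.prod_pow_eq_pow_sum, hMd, Finset.mul_sum]
    congr 2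
    exact Finset.sum_coe_sort s (fun p => 6 * p.natDegree)
  -- equidistribution
  have hEQ := hE F n m M hMm.ne_zero (by omega) (by omega) W {B | Bᵀ = B} hWs (fun B hB => hB)
  have hV : ({B : Matrix (Fin 3) (Fin 3) (F × F) | Bᵀ = B}).ncard = q ^ 12 := by
    rw [ncard_sym, Nat.card_prod, ← hq]
    ring
  rw [hV] at hEQ
  set S := {B : Matrix (Fin 3) (Fin 3) F[X] | Bd n m B ∧ B.map (AdjoinRoot.mk M) ∈ W ∧
        (Matrix.of fun i j => ((B i j).coeff (2 * (n : ℤ) + dd m i + dd m j).toNat,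
          (B i j).coeff ((2 * (n : ℤ) + dd m i + dd m j).toNat - 1))) ∈
          {B : Matrix (Fin 3) (Fin 3) (F × F) | Bᵀ = B}} with hS
  have hsub : {B : Matrix (Fin 3) (Fin 3) F[X] | Bd n m B ∧ ∃ f ∈ Fam F n,
      ¬ Irreducible (cubK f) ∧ (AA F[X] * B).charpoly = cubP f} ⊆ S := by
    rintro B ⟨hB, f, -, hf, hch⟩
    refine ⟨hB, ⟨B, hB.1, rfl, fun p hp => ?_⟩, ?_⟩
    · have : Fact (Irreducible p) := ⟨(hirr p hp).2⟩
      have h8 : (AA (AdjoinRoot p) * B.map (AdjoinRoot.mk p)).charpoly =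
          (cubP f).map (AdjoinRoot.mk p) := by
        rw [← hch, ← Matrix.charpoly_map, Matrix.map_mul]
        congr 2
        ext i j
        fin_cases i <;> fin_cases j <;> simp [AA]
      have h9 : ¬ Irreducible (cubP f) := by
        have hm : (cubP f).Monic := cub_monic _ _ _
        rw [hm.irreducible_iff_irreducible_map_fraction_map (K := RatFunc F)]
        have : (cubP f).map (algebraMap F[X] (RatFunc F)) = cubK f := by
          simp [cubP, cubK, cub]
        rw [this]
        exact hf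
      have hm : (cubP f).Monic := cub_monic _ _ _
      have hd : (cubP f).natDegree = 3 := cub_natDegree _ _ _
      rw [hm.irreducible_iff_roots_eq_zero_of_degree_le_three (by omega) (by omega)] at h9
      obtain ⟨r, hr⟩ := Multiset.exists_mem_of_ne_zero h9
      have hr' : (cubP f).eval r = 0 := (mem_roots'.1 hr).2
      rw [h8]
      have hm' : ((cubP f).map (AdjoinRoot.mk p)).Monic := hm.map _
      have hd' : ((cubP f).map (AdjoinRoot.mk p)).natDegree = 3 := by
        rw [hm.natDegree_map, hd]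
      rw [hm'.irreducible_iff_roots_eq_zero_of_degree_le_three (by omega) (by omega)]
      intro h10
      have h11 : AdjoinRoot.mk p r ∈ ((cubP f).map (AdjoinRoot.mk p)).roots := by
        rw [mem_roots', IsRoot.def, eval_map_apply, hr', map_zero]
        exact ⟨hm'.ne_zero, rfl⟩
      rw [h10] at h11
      exact Multiset.notMem_zero _ h11
    · show _ᵀ = _
      refine Matrix.ext fun i j => ?_
      have hsym : B j i = B i j := by
        conv_rhs => rw [← hB.1]
        rfl
      simp only [transpose_apply, of_apply]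
      rw [hsym, add_right_comm]
  have hle : ({B : Matrix (Fin 3) (Fin 3) F[X] | Bd n m B ∧ ∃ f ∈ Fam F n,
      ¬ Irreducible (cubK f) ∧ (AA F[X] * B).charpoly = cubP f}.ncard : ℝ) ≤ (S.ncard : ℝ) := by
    exact_mod_cast Set.ncard_le_ncard hsub ((bd_finite F n m).subset fun B hB => hB.1)
  refine hle.trans ?_
  have hqr : (0 : ℝ) < (q : ℝ) := by exact_mod_cast hq0
  have hEQ' : (S.ncard : ℝ) * ((q : ℝ) ^ (6 * M.natDegree) * (q : ℝ) ^ 12) =
      (q : ℝ) ^ (12 * n + 6) * ((W.ncard : ℝ) * (q : ℝ) ^ 12) := by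
    exact_mod_cast hEQ
  have hpos : (0 : ℝ) < (q : ℝ) ^ (6 * M.natDegree) * (q : ℝ) ^ 12 := by positivity
  refine le_of_mul_le_mul_right ?_ hpos
  rw [hEQ']
  have h12 : (W.ncard : ℝ) ≤ ε * (q : ℝ) ^ (6 * M.natDegree) := by
    refine hWcard.trans ?_
    exact mul_le_mul_of_nonneg_right hk.le (by positivity)
  calc (q : ℝ) ^ (12 * n + 6) * ((W.ncard : ℝ) * (q : ℝ) ^ 12) ≤
      (q : ℝ) ^ (12 * n + 6) * ((ε * (q : ℝ) ^ (6 * M.natDegree)) * (q : ℝ) ^ 12) := by gcongr
    _ = ε * (q : ℝ) ^ (12 * n + 6) * ((q : ℝ) ^ (6 * M.natDegree) * (q : ℝ) ^ 12) := by ring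

end Pool.AVR
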