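import Pool.Agent.H14.AVR.Stmts4
import Pool.Agent.H86.AVR.TAI

/-!
# AVR: module TA5
-/

set_option autoImplicit false

namespace Pool.AVR

open Polynomial

namespace TA5

open Pool.AVR.H86

variable {F : Type} [Field F]

/-- The discriminant of the depressed cubic, up to sign. -/
noncomputable def D0 (b c : F[X]) : F[X] := 4 * b ^ 3 + 27 * c ^ 2

/-- The auxiliary polynomial. -/
noncomputable def R0 (b g : F[X]) : F[X] := 3 * g ^ 2 + b * derivative b ^ 2

/-- The polynomials of degree at most `N` with derivative zero. -/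
def K0 (F : Type) [Field F] (N : ℕ) : Set F[X] := {c | c ∈ PD F N ∧ derivative c = 0}

/-- The derivatives. -/
def Gm (F : Type) [Field F] (N : ℕ) : Set F[X] := (fun c => derivative c) '' PD F N

theorem isUnit_nat (n : ℕ) (h : (n : F) ≠ 0) : IsUnit (n : F[X]) := by
  have : (n : F[X]) = C (n : F) := (map_natCast C n).symm
  rw [this]
  exact isUnit_C.2 (isUnit_iff_ne_zero.2 h)

theorem unit2 (h2 : (2 : F) ≠ 0) : IsUnit (2 : F[X]) := by
  have := isUnit_nat 2 (by exact_mod_cast h2)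
  exact_mod_cast this

theorem unit3 (h3 : (3 : F) ≠ 0) : IsUnit (3 : F[X]) := by
  have := isUnit_nat 3 (by exact_mod_cast h3)
  exact_mod_cast this

theorem unit4 (h2 : (2 : F) ≠ 0) : IsUnit (4 : F[X]) := by
  have : (4 : F[X]) = 2 * 2 := by norm_num
  rw [this]
  exact (unit2 h2).mul (unit2 h2)

theorem unit27 (h3 : (3 : F) ≠ 0) : IsUnit (27 : F[X]) := by
  have : (27 : F[X]) = 3 * 3 * 3 := by norm_num
  rw [this]
  exact ((unit3 h3).mul (unit3 h3)).mul (unit3 h3)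

theorem unit24 (h2 : (2 : F) ≠ 0) (h3 : (3 : F) ≠ 0) : IsUnit (24 : F[X]) := by
  have : (24 : F[X]) = 2 * 2 * 2 * 3 := by norm_num
  rw [this]
  exact (((unit2 h2).mul (unit2 h2)).mul (unit2 h2)).mul (unit3 h3)

theorem not_dvd_unit {P u : F[X]} (hP : Irreducible P) (hu : IsUnit u) : ¬ P ∣ u := fun h =>
  hP.not_isUnit (isUnit_of_dvd_unit h hu)

theorem dvd_R0 (h2 : (2 : F) ≠ 0) (h3 : (3 : F) ≠ 0) {P b c : F[X]} (hP : Irreducible P)
    (hb : ¬ P ∣ b) (h : P ^ 2 ∣ D0 b c) : P ∣ R0 b (derivative c) := by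
  have h1 : P ∣ D0 b c := (dvd_pow_self P two_ne_zero).trans h
  have h4 : P ∣ derivative (D0 b c) := by
    obtain ⟨v, hv⟩ := h
    rw [hv, derivative_mul, derivative_pow]
    refine dvd_add ?_ ?_
    · refine Dvd.dvd.mul_right ?_ _
      refine Dvd.dvd.mul_right ?_ _
      refine Dvd.dvd.mul_left ?_ _
      simp
    · exact (dvd_pow_self P two_ne_zero).mul_right _
  have e4 : derivative (4 : F[X]) = 0 := by
    have : (4 : F[X]) = C 4 := (map_ofNat C 4).symm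
    rw [this, derivative_C]
  have e27 : derivative (27 : F[X]) = 0 := by
    have : (27 : F[X]) = C 27 := (map_ofNat C 27).symm
    rw [this, derivative_C]
  have h5 : derivative (D0 b c) = 12 * b ^ 2 * derivative b + 54 * c * derivative c := by
    unfold D0
    rw [derivative_add, derivative_mul, derivative_mul, e4, e27, derivative_pow, derivative_pow]
    have c3 : (C ((3 : ℕ) : F) : F[X]) = 3 := by
      rw [map_natCast]
      norm_num
    have c2 : (C ((2 : ℕ) : F) : F[X]) = 2 := by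
      rw [map_natCast]
      norm_num
    rw [c3, c2]
    norm_num
    ring
  have h6 : 24 * b ^ 3 * R0 b (derivative c) =
      derivative (D0 b c) * (2 * b ^ 2 * derivative b - 9 * c * derivative c) +
        18 * derivative c ^ 2 * D0 b c := by
    rw [h5]
    unfold D0 R0
    ring
  have h7 : P ∣ 24 * b ^ 3 * R0 b (derivative c) := by
    rw [h6]
    exact dvd_add (h4.mul_right _) (h1.mul_left _)
  rcases hP.prime.dvd_or_dvd h7 with h8 | h8
  · rcases hP.prime.dvd_or_dvd h8 with h9 | h9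
    · exact absurd h9 (not_dvd_unit hP (unit24 h2 h3))
    · exact absurd (hP.prime.dvd_of_dvd_pow h9) hb
  · exact h8

theorem dvd_c (h3 : (3 : F) ≠ 0) {P b c : F[X]} (hP : Irreducible P)
    (hb : P ∣ b) (h : P ∣ D0 b c) : P ∣ c := by
  have h1 : P ∣ 27 * c ^ 2 := by
    have h2 : 27 * c ^ 2 = D0 b c - 4 * b ^ 3 := by
      unfold D0
      ring
    rw [h2]
    exact dvd_sub h ((dvd_pow hb three_ne_zero).mul_left _)
  rcases hP.prime.dvd_or_dvd h1 with h4 | h4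
  · exact absurd h4 (not_dvd_unit hP (unit27 h3))
  · exact hP.prime.dvd_of_dvd_pow h4

theorem not_dvd_c (h2 : (2 : F) ≠ 0) {P b c : F[X]} (hP : Irreducible P)
    (hb : ¬ P ∣ b) (h : P ∣ D0 b c) : ¬ P ∣ c := by
  intro hc
  have h1 : P ∣ 4 * b ^ 3 := by
    have h3 : 4 * b ^ 3 = D0 b c - 27 * c ^ 2 := by
      unfold D0
      ring
    rw [h3]
    exact dvd_sub h ((dvd_pow hc two_ne_zero).mul_left _)
  rcases hP.prime.dvd_or_dvd h1 with h4 | h4
  · exact absurd h4 (not_dvd_unit hP (unit4 h2))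
  · exact hb (hP.prime.dvd_of_dvd_pow h4)

/-- Two solutions are congruent up to sign. -/
theorem pm (h2 : (2 : F) ≠ 0) (h3 : (3 : F) ≠ 0) {P b c c' : F[X]} (hP : Irreducible P)
    (hb : ¬ P ∣ b) (h : P ^ 2 ∣ D0 b c) (h' : P ^ 2 ∣ D0 b c') :
    P ^ 2 ∣ c' - c ∨ P ^ 2 ∣ c' - (-c) := by
  have h4 : P ^ 2 ∣ (c' - c) * (c' - (-c)) := by
    have h5 : P ^ 2 ∣ 27 * ((c' - c) * (c' - (-c))) := by
      have h6 : 27 * ((c' - c) * (c' - (-c))) = D0 b c' - D0 b c := by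
        unfold D0
        ring
      rw [h6]
      exact dvd_sub h' h
    exact ((unit27 h3).dvd_mul_left).1 h5
  have hc := not_dvd_c h2 hP hb ((dvd_pow_self P two_ne_zero).trans h)
  by_cases h5 : P ∣ c' - c
  · left
    have h6 : ¬ P ∣ c' - (-c) := by
      intro h7
      have h8 : P ∣ 2 * c := by
        have h9 : 2 * c = (c' - (-c)) - (c' - c) := by ring
        rw [h9]
        exact dvd_sub h7 h5
      rcases hP.prime.dvd_or_dvd h8 with h9 | h9
      · exact absurd h9 (not_dvd_unit hP (unit2 h2))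
      · exact hc h9
    have h7 : IsCoprime (P ^ 2) (c' - (-c)) := ((hP.coprime_iff_not_dvd).mpr h6).pow_left
    exact h7.dvd_of_dvd_mul_right h4
  · right
    have h7 : IsCoprime (P ^ 2) (c' - c) := ((hP.coprime_iff_not_dvd).mpr h5).pow_left
    exact h7.dvd_of_dvd_mul_left h4

/-- A large prime does not divide a nonzero polynomial with derivative zero. -/
theorem eq_of_dvd [Finite F] {n : ℕ} {P w : F[X]} (hP : Irreducible P)
    (hd : 3 * n < P.natDegree) (hw : w.natDegree ≤ 6 * n) (hw' : derivative w = 0)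
    (h : P ∣ w) : w = 0 := by
  by_contra hne
  obtain ⟨v, rfl⟩ := h
  have hsep : P.Separable := PerfectField.separable_of_irreducible hP
  have hcop : IsCoprime P (derivative P) := hsep
  rw [derivative_mul] at hw'
  have h1 : P ∣ derivative P * v := by
    have h2 : derivative P * v = - (P * derivative v) := by linear_combination hw'
    rw [h2]
    exact (dvd_neg).2 (dvd_mul_right _ _)
  have h2 : P ∣ v := hcop.dvd_of_dvd_mul_left h1
  obtain ⟨u, rfl⟩ := h2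
  have hP0 := hP.ne_zero
  have hu : u ≠ 0 := by
    rintro rfl
    simp at hne
  have h3 : (P * (P * u)).natDegree = P.natDegree + (P.natDegree + u.natDegree) := by
    rw [natDegree_mul hP0 (mul_ne_zero hP0 hu), natDegree_mul hP0 hu]
  omega

/-- Number of derivatives times number of constants. -/
theorem card_Gm [Finite F] (N : ℕ) :
    (K0 F N).ncard * (Gm F N).ncard = Nat.card F ^ (N + 1) := by
  set D : degreeLT F (N + 1) →ₗ[F] F[X] :=
    (derivative : F[X] →ₗ[F] F[X]).domRestrict (degreeLT F (N + 1)) with hD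
  have hfin : Finite (degreeLT F (N + 1)) :=
    Finite.of_equiv _ (degreeLTEquiv F (N + 1)).toEquiv.symm
  have h1 := Submodule.card_eq_card_quotient_mul_card (LinearMap.ker D)
  have h2 : Nat.card (degreeLT F (N + 1) ⧸ LinearMap.ker D) = Nat.card (LinearMap.range D) :=
    Nat.card_congr D.quotKerEquivRange.toEquiv
  have h3 : Nat.card (LinearMap.range D) = (Gm F N).ncard := by
    have e : (Gm F N) = ((LinearMap.range D : Submodule F F[X]) : Set F[X]) := by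
      unfold Gm
      rw [PD_eq]
      ext x
      constructor
      · rintro ⟨c, hc, rfl⟩
        exact ⟨⟨c, hc⟩, rfl⟩
      · rintro ⟨⟨c, hc⟩, rfl⟩
        exact ⟨c, hc, rfl⟩
    rw [e]
    rfl
  have h4 : Nat.card (LinearMap.ker D) = (K0 F N).ncard := by
    rw [← Nat.card_coe_set_eq]
    refine Nat.card_congr ⟨fun x => ⟨x.1.1, ?_, ?_⟩, fun x => ⟨⟨x.1, ?_⟩, ?_⟩, ?_, ?_⟩
    · rw [PD_eq]
      exact x.1.2
    · exact x.2
    · have := x.2.1
      rw [PD_eq] at this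
      exact this
    · exact x.2.2
    · intro x
      rfl
    · intro x
      rfl
  have h5 : Nat.card (degreeLT F (N + 1)) = Nat.card F ^ (N + 1) := by
    rw [Nat.card_congr (degreeLTEquiv F (N + 1)).toEquiv, Nat.card_fun, Nat.card_fin]
  rw [← h5, h1, h2, h3, h4]

theorem K0_finite [Finite F] (N : ℕ) : (K0 F N).Finite := (PD_finite N).subset fun _ h => h.1

theorem Gm_finite [Finite F] (N : ℕ) : (Gm F N).Finite := (PD_finite N).image _

theorem K0_lower [Finite F] (p : ℕ) [CharP F p] (hp : 0 < p) (N : ℕ) :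
    Nat.card F ^ (N / p + 1) ≤ (K0 F N).ncard := by
  rw [← PD_ncard]
  refine Set.ncard_le_ncard_of_injOn (fun g => expand F p g) ?_ ?_ (K0_finite N)
  · intro g hg
    have hg' : g.natDegree ≤ N / p := hg
    refine ⟨?_, ?_⟩
    · show (expand F p g).natDegree ≤ N
      rw [natDegree_expand]
      exact (Nat.mul_le_mul_right _ hg').trans (Nat.div_mul_le_self _ _)
    · show derivative (expand F p g) = 0
      rw [derivative_expand]
      have : ((p : ℕ) : F[X]) = 0 := CharP.cast_eq_zero _ _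
      rw [this]
      ring
  · intro g _ g' _ h
    exact expand_injective hp h

theorem K0_upper [Finite F] (p : ℕ) [CharP F p] (hp : 2 ≤ p) (N : ℕ) :
    (K0 F N).ncard ≤ Nat.card F ^ (N / 2 + 1) := by
  rw [← PD_ncard]
  have hsub : K0 F N ⊆ (fun g => expand F p g) '' PD F (N / 2) := by
    rintro c ⟨hc, hc'⟩
    refine ⟨contract p c, ?_, expand_contract p hc' (by omega)⟩
    show (contract p c).natDegree ≤ N / 2
    have h1 := natDegree_expand p (contract p c)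
    rw [expand_contract p hc' (by omega)] at h1
    have hc2 : c.natDegree ≤ N := hc
    rw [Nat.le_div_iff_mul_le (by norm_num)]
    calc (contract p c).natDegree * 2 ≤ (contract p c).natDegree * p := Nat.mul_le_mul_left _ hp
      _ = c.natDegree := h1.symm
      _ ≤ N := hc2
  exact (Set.ncard_le_ncard hsub ((PD_finite _).image _)).trans (Set.ncard_image_le (PD_finite _))

theorem natDegree_R0 {n : ℕ} (hn : 1 ≤ n) {b c : F[X]} (hb : b.natDegree ≤ 4 * n)
    (hc : c.natDegree ≤ 6 * n) : (R0 b (derivative c)).natDegree ≤ 12 * n - 2 := by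
  unfold R0
  have h3 : (3 : F[X]) = C 3 := (map_ofNat C 3).symm
  have hc' := natDegree_derivative_le c
  have hb' := natDegree_derivative_le b
  refine (natDegree_add_le _ _).trans (max_le ?_ ?_)
  · rw [h3]
    refine (natDegree_C_mul_le _ _).trans ?_
    refine natDegree_pow_le.trans ?_
    omega
  · refine natDegree_mul_le.trans ?_
    have := natDegree_pow_le (p := derivative b) (n := 2)
    omega

/-- Few large primes divide a nonzero polynomial of degree at most `12n-2`. -/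
theorem few_primes {n : ℕ} (hn : 1 ≤ n) {R : F[X]} (hR : R ≠ 0) (hd : R.natDegree ≤ 12 * n - 2)
    (S : Finset F[X]) (hS : ∀ P ∈ S, P.Monic ∧ Irreducible P ∧ 3 * n < P.natDegree ∧ P ∣ R) :
    S.card ≤ 3 := by
  have h1 : ∏ P ∈ S, P ∣ R := by
    refine Finset.prod_dvd_of_coprime (s := fun P : F[X] => P) ?_ (fun P hP => (hS P hP).2.2.2)
    intro P hP Q hQ hne
    change IsCoprime P Q
    obtain ⟨hPm, hPi, _⟩ := hS P hP
    obtain ⟨hQm, hQi, _⟩ := hS Q hQ
    rw [hPi.coprime_iff_not_dvd]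
    intro hdvd
    exact hne (eq_of_monic_of_associated hPm hQm (hPi.associated_of_dvd hQi hdvd))
  have h2 := natDegree_le_of_dvd h1 hR
  have h3 : (∏ P ∈ S, P).natDegree = ∑ P ∈ S, P.natDegree :=
    natDegree_prod_of_monic S (fun P => P) (fun P hP => (hS P hP).1)
  have h4 : S.card * (3 * n + 1) ≤ ∑ P ∈ S, P.natDegree := by
    rw [← smul_eq_mul]
    exact Finset.card_nsmul_le_sum _ _ _ (fun P hP => (hS P hP).2.2.1)
  by_contra hcon
  have h5 : 4 ≤ S.card := by omega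
  have h6 : 4 * (3 * n + 1) ≤ S.card * (3 * n + 1) := Nat.mul_le_mul_right _ h5
  omega

/-- At most two `c` with given derivative for one large prime. -/
theorem two_c [Finite F] (h3 : (3 : F) ≠ 0) {n : ℕ} {P b g : F[X]}
    (hP : Irreducible P) (hd : 3 * n < P.natDegree) :
    ({c ∈ PD F (6 * n) | derivative c = g ∧ P ∣ D0 b c} : Set F[X]).ncard ≤ 2 := by
  by_contra hcon
  have hfin : ({c ∈ PD F (6 * n) | derivative c = g ∧ P ∣ D0 b c} : Set F[X]).Finite :=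
    (PD_finite _).subset fun _ h => h.1
  have h1 : 2 < ({c ∈ PD F (6 * n) | derivative c = g ∧ P ∣ D0 b c} : Set F[X]).ncard := by omega
  obtain ⟨x, hx, y, hy, z, hz, hxy, hxz, hyz⟩ := (Set.two_lt_ncard hfin).1 h1
  have key : ∀ u v : F[X], u ∈ PD F (6 * n) → v ∈ PD F (6 * n) → derivative u = g →
      derivative v = g → P ∣ u - v → u = v := by
    intro u v hu hv hu' hv' h
    have h2 : u - v = 0 := by
      refine eq_of_dvd hP hd ?_ ?_ h
      · exact (natDegree_sub_le _ _).trans (max_le hu hv)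
      · rw [derivative_sub, hu', hv', sub_self]
    exact sub_eq_zero.1 h2
  have key2 : ∀ u v : F[X], u ∈ PD F (6 * n) → v ∈ PD F (6 * n) → derivative u = g →
      derivative v = g → P ∣ D0 b u → P ∣ D0 b v → u ≠ v → P ∣ u + v := by
    intro u v hu hv hu' hv' hdu hdv hne
    have h2 : P ∣ 27 * ((u - v) * (u + v)) := by
      have h6 : 27 * ((u - v) * (u + v)) = D0 b u - D0 b v := by
        unfold D0
        ring
      rw [h6]
      exact dvd_sub hdu hdv
    rcases hP.prime.dvd_or_dvd h2 with h4 | h4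
    · exact absurd h4 (not_dvd_unit hP (unit27 h3))
    · rcases hP.prime.dvd_or_dvd h4 with h5 | h5
      · exact absurd (key u v hu hv hu' hv' h5) hne
      · exact h5
  have e1 := key2 x y hx.1 hy.1 hx.2.1 hy.2.1 hx.2.2 hy.2.2 hxy
  have e2 := key2 x z hx.1 hz.1 hx.2.1 hz.2.1 hx.2.2 hz.2.2 hxz
  have e3 : P ∣ y - z := by
    have h6 : y - z = (x + y) - (x + z) := by ring
    rw [h6]
    exact dvd_sub e1 e2
  exact hyz (key y z hy.1 hz.1 hy.2.1 hz.2.1 e3)

theorem fin2 [Finite F] (n : ℕ) : (PD F (4 * n) ×ˢ PD F (6 * n)).Finite :=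
  (PD_finite _).prod (PD_finite _)

/-- `b = 0`. -/
theorem part0 [Finite F] (n : ℕ) :
    ({x ∈ PD F (4 * n) ×ˢ PD F (6 * n) | x.1 = 0} : Set (F[X] × F[X])).ncard ≤
      Nat.card F ^ (6 * n + 1) := by
  have hsub : ({x ∈ PD F (4 * n) ×ˢ PD F (6 * n) | x.1 = 0} : Set (F[X] × F[X])) ⊆
      {0} ×ˢ PD F (6 * n) := by
    rintro ⟨b, c⟩ ⟨⟨_, hc⟩, hb⟩
    exact ⟨hb, hc⟩
  calc _ ≤ _ := Set.ncard_le_ncard hsub ((Set.finite_singleton _).prod (PD_finite _))
    _ = _ := by rw [Set.ncard_prod, Set.ncard_singleton, PD_ncard, one_mul]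

/-- `P` divides `b` and `c`. -/
theorem part1 [Finite F] (n : ℕ) (P : F[X]) (hP : P ≠ 0) :
    ({x ∈ PD F (4 * n) ×ˢ PD F (6 * n) | P ∣ x.1 ∧ P ∣ x.2} : Set (F[X] × F[X])).ncard ≤
      Nat.card F ^ (4 * n + 1 - P.natDegree) * Nat.card F ^ (6 * n + 1 - P.natDegree) := by
  have hsub : ({x ∈ PD F (4 * n) ×ˢ PD F (6 * n) | P ∣ x.1 ∧ P ∣ x.2} : Set (F[X] × F[X])) ⊆
      {p ∈ PD F (4 * n) | P ∣ p - 0} ×ˢ {p ∈ PD F (6 * n) | P ∣ p - 0} := by
    rintro ⟨b, c⟩ ⟨⟨hb, hc⟩, hPb, hPc⟩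
    refine ⟨⟨hb, ?_⟩, ⟨hc, ?_⟩⟩
    · simpa using hPb
    · simpa using hPc
  calc _ ≤ _ := Set.ncard_le_ncard hsub (((PD_finite _).subset (fun _ h => h.1)).prod
        ((PD_finite _).subset (fun _ h => h.1)))
    _ ≤ _ := by
      rw [Set.ncard_prod]
      exact Nat.mul_le_mul (ncard_class _ _ _ hP) (ncard_class _ _ _ hP)

/-- fibres over `b` -/
theorem fib_b [Finite F] (n : ℕ) (Q : F[X] → F[X] → Prop) (B : ℕ)
    (h : ∀ b : F[X], b.natDegree ≤ 4 * n → ({c ∈ PD F (6 * n) | Q b c} : Set F[X]).ncard ≤ B) :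
    ({x ∈ PD F (4 * n) ×ˢ PD F (6 * n) | Q x.1 x.2} : Set (F[X] × F[X])).ncard ≤
      Nat.card F ^ (4 * n + 1) * B := by
  rw [← PD_ncard]
  refine ncard_fibre (fun x : F[X] × F[X] => x.1) (PD F (4 * n)) (PD_finite _) _
    ((fin2 n).subset fun _ h => h.1) B (fun x hx => hx.1.1) ?_
  intro b hb
  refine le_trans ?_ (h b hb)
  refine Set.ncard_le_ncard_of_injOn (fun x : F[X] × F[X] => x.2) ?_ ?_
    ((PD_finite _).subset fun _ h => h.1)
  · rintro ⟨b', c⟩ ⟨⟨hx, hQ⟩, he⟩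
    simp only at he
    subst he
    exact ⟨hx.2, hQ⟩
  · rintro ⟨b', c⟩ ⟨_, he⟩ ⟨b'', c'⟩ ⟨_, he'⟩ hcc
    simp only at he he' hcc
    rw [he, he', hcc]

/-- `P` does not divide `b`. -/
theorem part2 [Finite F] (h2 : (2 : F) ≠ 0) (h3 : (3 : F) ≠ 0) (n : ℕ) (P : F[X])
    (hP : Irreducible P) :
    ({x ∈ PD F (4 * n) ×ˢ PD F (6 * n) | ¬ P ∣ x.1 ∧ P ^ 2 ∣ D0 x.1 x.2} :
      Set (F[X] × F[X])).ncard ≤
      Nat.card F ^ (4 * n + 1) * (2 * Nat.card F ^ (6 * n + 1 - 2 * P.natDegree)) := by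
  refine fib_b n (fun b c => ¬ P ∣ b ∧ P ^ 2 ∣ D0 b c) _ ?_
  intro b _
  rcases Set.eq_empty_or_nonempty ({c ∈ PD F (6 * n) | ¬ P ∣ b ∧ P ^ 2 ∣ D0 b c} : Set F[X])
    with h | ⟨c0, hc0, hb0, hd0⟩
  · rw [h, Set.ncard_empty]
    exact Nat.zero_le _
  have hsub : ({c ∈ PD F (6 * n) | ¬ P ∣ b ∧ P ^ 2 ∣ D0 b c} : Set F[X]) ⊆
      {c ∈ PD F (6 * n) | P ^ 2 ∣ c - c0} ∪ {c ∈ PD F (6 * n) | P ^ 2 ∣ c - (-c0)} := by
    rintro c ⟨hc, _, hd⟩
    rcases pm h2 h3 hP hb0 hd0 hd with h | h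
    · exact Or.inl ⟨hc, h⟩
    · exact Or.inr ⟨hc, h⟩
  have hP2 : P ^ 2 ≠ 0 := pow_ne_zero 2 hP.ne_zero
  calc _ ≤ _ := Set.ncard_le_ncard hsub (((PD_finite _).subset fun _ h => h.1).union
        ((PD_finite _).subset fun _ h => h.1))
    _ ≤ _ := Set.ncard_union_le _ _
    _ ≤ _ := Nat.add_le_add (ncard_class _ _ _ hP2) (ncard_class _ _ _ hP2)
    _ = _ := by rw [natDegree_pow]; ring

/-- A large prime, the auxiliary polynomial is not zero. -/
theorem part3 [Finite F] (h2 : (2 : F) ≠ 0) (h3 : (3 : F) ≠ 0) (n : ℕ) (hn : 1 ≤ n) :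
    ({x ∈ PD F (4 * n) ×ˢ PD F (6 * n) | R0 x.1 (derivative x.2) ≠ 0 ∧
      ∃ P : F[X], P.Monic ∧ Irreducible P ∧ 3 * n < P.natDegree ∧ ¬ P ∣ x.1 ∧
        P ^ 2 ∣ D0 x.1 x.2} : Set (F[X] × F[X])).ncard ≤
      (Nat.card F ^ (4 * n + 1) * (Gm F (6 * n)).ncard) * 6 := by
  classical
  rw [← PD_ncard, ← Set.ncard_prod]
  refine ncard_fibre (fun x : F[X] × F[X] => (x.1, derivative x.2)) _
    ((PD_finite _).prod (Gm_finite _)) _ ((fin2 n).subset fun _ h => h.1) 6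
    (fun x hx => ⟨hx.1.1, ⟨x.2, hx.1.2, rfl⟩⟩) ?_
  rintro ⟨b, g⟩ ⟨hb, ⟨cg, hcg, hg⟩⟩
  simp only at hg hb
  by_cases hR : R0 b g = 0
  · have he : ({z ∈ {x ∈ PD F (4 * n) ×ˢ PD F (6 * n) | R0 x.1 (derivative x.2) ≠ 0 ∧
      ∃ P : F[X], P.Monic ∧ Irreducible P ∧ 3 * n < P.natDegree ∧ ¬ P ∣ x.1 ∧
        P ^ 2 ∣ D0 x.1 x.2} | (z.1, derivative z.2) = (b, g)} : Set (F[X] × F[X])) = ∅ := by
      rw [Set.eq_empty_iff_forall_notMem]
      rintro ⟨b', c'⟩ ⟨⟨_, hne, _⟩, he⟩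
      simp only [Prod.mk.injEq] at he
      simp only at hne
      rw [he.1, he.2] at hne
      exact hne hR
    rw [he, Set.ncard_empty]
    exact Nat.zero_le _
  set S : Finset F[X] := (UniqueFactorizationMonoid.normalizedFactors (R0 b g)).toFinset.filter
    (fun P => 3 * n < P.natDegree) with hS
  have hmem : ∀ P : F[X], P ∈ S ↔ (Irreducible P ∧ P.Monic ∧ P ∣ R0 b g) ∧ 3 * n < P.natDegree := by
    intro P
    rw [hS, Finset.mem_filter, Multiset.mem_toFinset, Polynomial.mem_normalizedFactors_iff hR]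
  have hdeg : (R0 b g).natDegree ≤ 12 * n - 2 := by
    rw [← hg]
    exact natDegree_R0 hn hb hcg
  have hcard : S.card ≤ 3 := by
    refine few_primes hn hR hdeg S ?_
    intro P hP
    rw [hmem] at hP
    exact ⟨hP.1.2.1, hP.1.1, hP.2, hP.1.2.2⟩
  have hle : ({z ∈ {x ∈ PD F (4 * n) ×ˢ PD F (6 * n) | R0 x.1 (derivative x.2) ≠ 0 ∧
      ∃ P : F[X], P.Monic ∧ Irreducible P ∧ 3 * n < P.natDegree ∧ ¬ P ∣ x.1 ∧
        P ^ 2 ∣ D0 x.1 x.2} | (z.1, derivative z.2) = (b, g)} : Set (F[X] × F[X])).ncard ≤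
      (⋃ P ∈ S, ({c ∈ PD F (6 * n) | derivative c = g ∧ P ∣ D0 b c} : Set F[X])).ncard := by
    refine Set.ncard_le_ncard_of_injOn (fun x : F[X] × F[X] => x.2) ?_ ?_ ?_
    · rintro ⟨b', c'⟩ ⟨⟨hx, _, P, hPm, hPi, hPd, hPb, hPD⟩, he⟩
      simp only [Prod.mk.injEq] at he
      obtain ⟨rfl, hc'⟩ := he
      simp only [Set.mem_iUnion]
      refine ⟨P, ?_, hx.2, hc', (dvd_pow_self P two_ne_zero).trans hPD⟩
      rw [hmem, ← hc']
      exact ⟨⟨hPi, hPm, dvd_R0 h2 h3 hPi hPb hPD⟩, hPd⟩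
    · rintro ⟨b', c⟩ ⟨_, he⟩ ⟨b'', c'⟩ ⟨_, he'⟩ hcc
      simp only [Prod.mk.injEq] at he he'
      simp only at hcc
      rw [he.1, he'.1, hcc]
    · refine (PD_finite (6 * n)).subset ?_
      intro c hc
      simp only [Set.mem_iUnion] at hc
      obtain ⟨_, _, hc⟩ := hc
      exact hc.1
  calc _ ≤ _ := hle
    _ ≤ _ := Finset.set_ncard_biUnion_le _ _
    _ ≤ S.card • 2 := by
      refine Finset.sum_le_card_nsmul _ _ _ ?_
      intro P hP
      rw [hmem] at hP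
      exact two_c h3 hP.1.1 hP.2
    _ ≤ 6 := by
      rw [smul_eq_mul]
      omega

/-- The auxiliary polynomial is zero. -/
theorem part4 [Finite F] (h3 : (3 : F) ≠ 0) (n : ℕ) :
    ({x ∈ PD F (4 * n) ×ˢ PD F (6 * n) | R0 x.1 (derivative x.2) = 0} :
      Set (F[X] × F[X])).ncard ≤ Nat.card F ^ (4 * n + 1) * (2 * (K0 F (6 * n)).ncard) := by
  refine fib_b n (fun b c => R0 b (derivative c) = 0) _ ?_
  intro b _
  rcases Set.eq_empty_or_nonempty ({c ∈ PD F (6 * n) | R0 b (derivative c) = 0} : Set F[X])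
    with h | ⟨c0, hc0, h0⟩
  · rw [h, Set.ncard_empty]
    exact Nat.zero_le _
  have hsub : ({c ∈ PD F (6 * n) | R0 b (derivative c) = 0} : Set F[X]) ⊆
      (fun k => k + c0) '' K0 F (6 * n) ∪ (fun k => k - c0) '' K0 F (6 * n) := by
    rintro c ⟨hc, hd⟩
    have h5 : 3 * ((derivative c - derivative c0) * (derivative c + derivative c0)) = 0 := by
      unfold R0 at hd h0
      linear_combination hd - h0
    have h6 : (derivative c - derivative c0) * (derivative c + derivative c0) = 0 := by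
      rcases mul_eq_zero.1 h5 with h | h
      · exact absurd h (unit3 h3).ne_zero
      · exact h
    rcases mul_eq_zero.1 h6 with h | h
    · left
      refine ⟨c - c0, ⟨(natDegree_sub_le _ _).trans (max_le hc hc0), ?_⟩, by simp⟩
      rw [derivative_sub]
      exact h
    · right
      refine ⟨c + c0, ⟨(natDegree_add_le _ _).trans (max_le hc hc0), ?_⟩, by simp⟩
      rw [derivative_add]
      exact h
  calc _ ≤ _ := Set.ncard_le_ncard hsub (((K0_finite _).image _).union ((K0_finite _).image _))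
    _ ≤ _ := Set.ncard_union_le _ _
    _ ≤ _ := Nat.add_le_add (Set.ncard_image_le (K0_finite _)) (Set.ncard_image_le (K0_finite _))
    _ = _ := by ring

/-- The set of bad pairs. -/
def Bad (F : Type) [Field F] (n D : ℕ) : Set (F[X] × F[X]) :=
  {x | x ∈ PD F (4 * n) ×ˢ PD F (6 * n) ∧ ∃ P : F[X], P.Monic ∧ Irreducible P ∧
    D < P.natDegree ∧ P ^ 2 ∣ D0 x.1 x.2}

theorem Bad_finite [Finite F] (n D : ℕ) : (Bad F n D).Finite :=
  (fin2 n).subset fun _ h => h.1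

theorem cover5 [Finite F] (h3 : (3 : F) ≠ 0) (n D : ℕ) :
    Bad F n D ⊆ {x ∈ PD F (4 * n) ×ˢ PD F (6 * n) | x.1 = 0} ∪
      ((⋃ d ∈ Finset.Ioc D (4 * n), ⋃ P ∈ Ird F d,
        {x ∈ PD F (4 * n) ×ˢ PD F (6 * n) | P ∣ x.1 ∧ P ∣ x.2}) ∪
      ((⋃ d ∈ Finset.Ioc D (3 * n), ⋃ P ∈ Ird F d,
        {x ∈ PD F (4 * n) ×ˢ PD F (6 * n) | ¬ P ∣ x.1 ∧ P ^ 2 ∣ D0 x.1 x.2}) ∪
      ({x ∈ PD F (4 * n) ×ˢ PD F (6 * n) | R0 x.1 (derivative x.2) ≠ 0 ∧
        ∃ P : F[X], P.Monic ∧ Irreducible P ∧ 3 * n < P.natDegree ∧ ¬ P ∣ x.1 ∧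
        P ^ 2 ∣ D0 x.1 x.2} ∪
      {x ∈ PD F (4 * n) ×ˢ PD F (6 * n) | R0 x.1 (derivative x.2) = 0}))) := by
  rintro x ⟨hx, P, hPm, hPi, hPD, hd⟩
  by_cases h0 : x.1 = 0
  · exact Or.inl ⟨hx, h0⟩
  right
  by_cases hb : P ∣ x.1
  · left
    simp only [Set.mem_iUnion]
    refine ⟨P.natDegree, ?_, P, ?_, hx, hb, ?_⟩
    · rw [Finset.mem_Ioc]
      exact ⟨hPD, (natDegree_le_of_dvd hb h0).trans hx.1⟩
    · rw [mem_Ird]
      exact ⟨hPm, hPi, rfl⟩
    · exact dvd_c h3 hPi hb ((dvd_pow_self P two_ne_zero).trans hd)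
  right
  by_cases h4 : P.natDegree ≤ 3 * n
  · left
    simp only [Set.mem_iUnion]
    refine ⟨P.natDegree, ?_, P, ?_, hx, hb, hd⟩
    · rw [Finset.mem_Ioc]
      exact ⟨hPD, h4⟩
    · rw [mem_Ird]
      exact ⟨hPm, hPi, rfl⟩
  right
  by_cases h5 : R0 x.1 (derivative x.2) = 0
  · right
    exact ⟨hx, h5⟩
  · left
    exact ⟨hx, h5, P, hPm, hPi, by omega, hb, hd⟩

theorem count_nat [Finite F] (h2 : (2 : F) ≠ 0) (h3 : (3 : F) ≠ 0) (n D : ℕ) (hn : 1 ≤ n) :
    (Bad F n D).ncard ≤ Nat.card F ^ (6 * n + 1) +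
      ((∑ d ∈ Finset.Ioc D (4 * n), (Ird F d).card *
        (Nat.card F ^ (4 * n + 1 - d) * Nat.card F ^ (6 * n + 1 - d))) +
      ((∑ d ∈ Finset.Ioc D (3 * n), (Ird F d).card *
        (Nat.card F ^ (4 * n + 1) * (2 * Nat.card F ^ (6 * n + 1 - 2 * d)))) +
      ((Nat.card F ^ (4 * n + 1) * (Gm F (6 * n)).ncard) * 6 +
      Nat.card F ^ (4 * n + 1) * (2 * (K0 F (6 * n)).ncard)))) := by
  refine (Set.ncard_le_ncard (cover5 h3 n D) ?_).trans ?_
  · refine (fin2 n).subset ?_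
    intro f hf
    simp only [Set.mem_union, Set.mem_iUnion] at hf
    rcases hf with hf | ⟨_, _, _, _, hf⟩ | ⟨_, _, _, _, hf⟩ | hf | hf
    · exact hf.1
    · exact hf.1
    · exact hf.1
    · exact hf.1
    · exact hf.1
  refine (Set.ncard_union_le _ _).trans (add_le_add (part0 n) ?_)
  refine (Set.ncard_union_le _ _).trans (add_le_add ?_ ?_)
  · refine (Finset.set_ncard_biUnion_le _ _).trans (Finset.sum_le_sum ?_)
    intro d _
    refine (Finset.set_ncard_biUnion_le _ _).trans ?_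
    rw [← smul_eq_mul]
    refine Finset.sum_le_card_nsmul _ _ _ ?_
    intro P hP
    rw [mem_Ird] at hP
    have := part1 n P hP.2.1.ne_zero
    rw [hP.2.2] at this
    exact this
  refine (Set.ncard_union_le _ _).trans (add_le_add ?_ ?_)
  · refine (Finset.set_ncard_biUnion_le _ _).trans (Finset.sum_le_sum ?_)
    intro d _
    refine (Finset.set_ncard_biUnion_le _ _).trans ?_
    rw [← smul_eq_mul]
    refine Finset.sum_le_card_nsmul _ _ _ ?_
    intro P hP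
    rw [mem_Ird] at hP
    have := part2 h2 h3 n P hP.2.1
    rw [hP.2.2] at this
    exact this
  · exact (Set.ncard_union_le _ _).trans (add_le_add (part3 h2 h3 n hn) (part4 h3 n))

theorem count_real [Finite F] (h2 : (2 : F) ≠ 0) (h3 : (3 : F) ≠ 0) (p : ℕ) [CharP F p]
    (hp : 2 ≤ p) (n D : ℕ) (hn : 1 ≤ n) (hnD : p * D ≤ n) :
    ((Bad F n D).ncard : ℝ) ≤ 12 * (1 / 2) ^ D * (Nat.card F : ℝ) ^ (10 * n + 2) := by
  have hq2 : 2 ≤ Nat.card F := Finite.one_lt_card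
  have hc := count_nat h2 h3 n D hn
  have hG := card_Gm (F := F) (6 * n)
  have hKl := K0_lower (F := F) p (by omega) (6 * n)
  have hKu := K0_upper (F := F) p hp (6 * n)
  have hI : ∀ d : ℕ, (d : ℝ) * ((Ird F d).card : ℝ) ≤ (Nat.card F : ℝ) ^ d := by
    intro d
    have := irr_count d (Ird F d) (fun P hP => (mem_Ird d P).mp hP)
    exact_mod_cast this
  set q := Nat.card F with hq
  set k := (K0 F (6 * n)).ncard with hk
  set g := (Gm F (6 * n)).ncard with hg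
  have hqR : (2 : ℝ) ≤ (q : ℝ) := by exact_mod_cast hq2
  have hq0 : (0 : ℝ) < (q : ℝ) := by linarith
  have hDn : D ≤ n := le_trans (Nat.le_mul_of_pos_left D (by omega)) hnD
  have hI1 : ∀ d : ℕ, 1 ≤ d → ((Ird F d).card : ℝ) ≤ (q : ℝ) ^ d := by
    intro d hd
    have h1 := hI d
    have h2 : (1 : ℝ) ≤ (d : ℝ) := by exact_mod_cast hd
    have h4 : (0 : ℝ) ≤ ((Ird F d).card : ℝ) := Nat.cast_nonneg _
    nlinarith
  set T : ℝ := (q : ℝ) ^ (10 * n + 2) with hT
  have hT0 : 0 < T := by positivity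
  have hgeom : ∀ M : ℕ, ∑ d ∈ Finset.Ioc D M, T * (1 / (q : ℝ)) ^ d ≤ T * (1 / 2) ^ D := by
    intro M
    rw [← Finset.mul_sum]
    refine mul_le_mul_of_nonneg_left ?_ hT0.le
    refine (geom_small _ (by positivity) ?_ _ _).trans ?_
    · exact one_div_le_one_div_of_le (by norm_num) hqR
    · refine pow_le_pow_left₀ (by positivity) ?_ _
      exact one_div_le_one_div_of_le (by norm_num) hqR
  have hsmall : ∀ a b : ℕ, a + D ≤ b → (q : ℝ) ^ a ≤ (q : ℝ) ^ b * (1 / 2) ^ D := by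
    intro a b hab
    rw [one_div, inv_pow, ← div_eq_mul_inv, le_div_iff₀ (by positivity)]
    calc (q : ℝ) ^ a * 2 ^ D ≤ (q : ℝ) ^ a * (q : ℝ) ^ D :=
          mul_le_mul_of_nonneg_left (pow_le_pow_left₀ (by norm_num) hqR _) (by positivity)
      _ = (q : ℝ) ^ (a + D) := (pow_add _ _ _).symm
      _ ≤ (q : ℝ) ^ b := pow_le_pow_right₀ (by linarith) hab
  have t0 : (q : ℝ) ^ (6 * n + 1) ≤ T * (1 / 2) ^ D := hsmall _ _ (by omega)
  have t1 : ∑ d ∈ Finset.Ioc D (4 * n), ((Ird F d).card : ℝ) *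
      ((q : ℝ) ^ (4 * n + 1 - d) * (q : ℝ) ^ (6 * n + 1 - d)) ≤ T * (1 / 2) ^ D := by
    refine le_trans (Finset.sum_le_sum ?_) (hgeom (4 * n))
    intro d hd
    rw [Finset.mem_Ioc] at hd
    calc _ ≤ (q : ℝ) ^ d * ((q : ℝ) ^ (4 * n + 1 - d) * (q : ℝ) ^ (6 * n + 1 - d)) :=
          mul_le_mul_of_nonneg_right (hI1 d (by omega)) (by positivity)
      _ = T * (1 / (q : ℝ)) ^ d := by
          rw [hT, one_div, inv_pow, eq_mul_inv_iff_mul_eq₀ (by positivity), ← pow_add,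
            ← pow_add, ← pow_add]
          congr 1
          omega
  have t2 : ∑ d ∈ Finset.Ioc D (3 * n), ((Ird F d).card : ℝ) *
      ((q : ℝ) ^ (4 * n + 1) * (2 * (q : ℝ) ^ (6 * n + 1 - 2 * d))) ≤
      2 * (T * (1 / 2) ^ D) := by
    have h5 : ∑ d ∈ Finset.Ioc D (3 * n), ((Ird F d).card : ℝ) *
      ((q : ℝ) ^ (4 * n + 1) * (2 * (q : ℝ) ^ (6 * n + 1 - 2 * d))) ≤
      ∑ d ∈ Finset.Ioc D (3 * n), 2 * (T * (1 / (q : ℝ)) ^ d) := by
      refine Finset.sum_le_sum ?_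
      intro d hd
      rw [Finset.mem_Ioc] at hd
      calc _ ≤ (q : ℝ) ^ d * ((q : ℝ) ^ (4 * n + 1) * (2 * (q : ℝ) ^ (6 * n + 1 - 2 * d))) :=
            mul_le_mul_of_nonneg_right (hI1 d (by omega)) (by positivity)
        _ = 2 * ((q : ℝ) ^ d * (q : ℝ) ^ (4 * n + 1) * (q : ℝ) ^ (6 * n + 1 - 2 * d)) := by ring
        _ = 2 * (T * (1 / (q : ℝ)) ^ d) := by
            congr 1
            rw [hT, one_div, inv_pow, eq_mul_inv_iff_mul_eq₀ (by positivity), ← pow_add,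
              ← pow_add, ← pow_add]
            congr 1
            omega
    refine h5.trans ?_
    rw [← Finset.mul_sum]
    have := hgeom (3 * n)
    linarith
  have t3 : (g : ℝ) ≤ (q : ℝ) ^ (6 * n + 1) * (1 / 2) ^ D := by
    rw [one_div, inv_pow, ← div_eq_mul_inv, le_div_iff₀ (by positivity)]
    have h6 : (k : ℝ) * (g : ℝ) = (q : ℝ) ^ (6 * n + 1) := by exact_mod_cast hG
    have h7 : (2 : ℝ) ^ D ≤ (k : ℝ) := by
      have h8 : 2 ^ D ≤ k := by
        refine le_trans ?_ hKl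
        calc 2 ^ D ≤ q ^ D := Nat.pow_le_pow_left hq2 _
          _ ≤ q ^ (6 * n / p + 1) := by
            refine Nat.pow_le_pow_right (by omega) ?_
            have h9 : D ≤ 6 * n / p := by
              rw [Nat.le_div_iff_mul_le (by omega)]
              calc D * p = p * D := mul_comm _ _
                _ ≤ n := hnD
                _ ≤ 6 * n := by omega
            omega
      exact_mod_cast h8
    rw [← h6, mul_comm (k : ℝ)]
    exact mul_le_mul_of_nonneg_left h7 (Nat.cast_nonneg _)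
  have t3' : (q : ℝ) ^ (4 * n + 1) * (g : ℝ) * 6 ≤ 6 * (T * (1 / 2) ^ D) := by
    have h6 : T = (q : ℝ) ^ (4 * n + 1) * (q : ℝ) ^ (6 * n + 1) := by
      rw [hT, ← pow_add]
      congr 1
      omega
    have h7 := mul_le_mul_of_nonneg_left t3 (show (0 : ℝ) ≤ (q : ℝ) ^ (4 * n + 1) by positivity)
    rw [h6]
    linarith
  have t4 : (q : ℝ) ^ (4 * n + 1) * (2 * (k : ℝ)) ≤ 2 * (T * (1 / 2) ^ D) := by
    have h6 : (k : ℝ) ≤ (q : ℝ) ^ (3 * n + 1) := by
      have h7 : 6 * n / 2 + 1 = 3 * n + 1 := by omega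
      rw [h7] at hKu
      exact_mod_cast hKu
    have h8 := mul_le_mul_of_nonneg_left h6 (show (0 : ℝ) ≤ (q : ℝ) ^ (4 * n + 1) by positivity)
    have h9 : (q : ℝ) ^ (4 * n + 1) * (q : ℝ) ^ (3 * n + 1) = (q : ℝ) ^ (7 * n + 2) := by
      rw [← pow_add]
      congr 1
      omega
    have h10 := hsmall (7 * n + 2) (10 * n + 2) (by omega)
    rw [h9] at h8
    linarith
  have hcR : ((Bad F n D).ncard : ℝ) ≤ (q : ℝ) ^ (6 * n + 1) +
      ((∑ d ∈ Finset.Ioc D (4 * n), ((Ird F d).card : ℝ) *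
        ((q : ℝ) ^ (4 * n + 1 - d) * (q : ℝ) ^ (6 * n + 1 - d))) +
      ((∑ d ∈ Finset.Ioc D (3 * n), ((Ird F d).card : ℝ) *
        ((q : ℝ) ^ (4 * n + 1) * (2 * (q : ℝ) ^ (6 * n + 1 - 2 * d)))) +
      ((q : ℝ) ^ (4 * n + 1) * (g : ℝ) * 6 +
      (q : ℝ) ^ (4 * n + 1) * (2 * (k : ℝ))))) := by
    exact_mod_cast hc
  have hfin : 12 * (1 / 2 : ℝ) ^ D * T = 12 * (T * (1 / 2) ^ D) := by ring
  rw [hfin]
  linarith

/-- Completing the cube. -/
theorem reduce [Finite F] (h3 : (3 : F) ≠ 0) (n D : ℕ) :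
    ({f ∈ Fam F n | ∃ P : F[X], P.Monic ∧ Irreducible P ∧ D < P.natDegree ∧
      P ^ 2 ∣ disc f.1 f.2.1 f.2.2} : Set (F[X] × F[X] × F[X])).ncard ≤
      Nat.card F ^ (2 * n + 1) * (Bad F n D).ncard := by
  rw [← PD_ncard, ← Set.ncard_prod]
  refine Set.ncard_le_ncard_of_injOn (fun f : F[X] × F[X] × F[X] =>
      (f.1, (f.2.1 - 3 * (C (3 : F)⁻¹ * f.1) ^ 2,
        f.2.2 - (C (3 : F)⁻¹ * f.1) * f.2.1 + 2 * (C (3 : F)⁻¹ * f.1) ^ 3))) ?_ ?_
      ((PD_finite _).prod (Bad_finite _ _))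
  · rintro ⟨a, b, c⟩ ⟨⟨ha, hb, hc⟩, P, hPm, hPi, hPD, hd⟩
    simp only at ha hb hc hd
    have e3 : (3 : F[X]) = C 3 := (map_ofNat C 3).symm
    have e2 : (2 : F[X]) = C 2 := (map_ofNat C 2).symm
    set A : F[X] := C (3 : F)⁻¹ * a with hA
    have hA1 : A.natDegree ≤ 2 * n := (natDegree_C_mul_le _ _).trans ha
    have hA2 : (A ^ 2).natDegree ≤ 4 * n := by
      refine natDegree_pow_le.trans ?_
      omega
    have hA3 : (A ^ 3).natDegree ≤ 6 * n := by
      refine natDegree_pow_le.trans ?_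
      omega
    have haA : a = 3 * A := by
      rw [hA, e3, ← mul_assoc, ← C_mul, mul_inv_cancel₀ h3, C_1, one_mul]
    refine ⟨ha, ⟨?_, ?_⟩, P, hPm, hPi, hPD, ?_⟩
    · show (b - 3 * A ^ 2).natDegree ≤ 4 * n
      refine (natDegree_sub_le _ _).trans (max_le hb ?_)
      rw [e3]
      exact (natDegree_C_mul_le _ _).trans hA2
    · show (c - A * b + 2 * A ^ 3).natDegree ≤ 6 * n
      refine (natDegree_add_le _ _).trans (max_le ?_ ?_)
      · refine (natDegree_sub_le _ _).trans (max_le hc ?_)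
        refine natDegree_mul_le.trans ?_
        omega
      · rw [e2]
        exact (natDegree_C_mul_le _ _).trans hA3
    · show P ^ 2 ∣ D0 (b - 3 * A ^ 2) (c - A * b + 2 * A ^ 3)
      have h5 : D0 (b - 3 * A ^ 2) (c - A * b + 2 * A ^ 3) = - disc (3 * A) b c := by
        unfold D0 disc
        ring
      rw [h5, ← haA]
      exact (dvd_neg).2 hd
  · rintro ⟨a, b, c⟩ _ ⟨a', b', c'⟩ _ he
    simp only [Prod.mk.injEq] at he
    obtain ⟨rfl, e2, e3⟩ := he
    have f2 : b = b' := by linear_combination e2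
    subst f2
    have f3 : c = c' := by linear_combination e3
    rw [f3]

end TA5

open TA5 in
theorem ta5_thm : TA5Stmt := by
  intro F _ _ h2 h3 ε hε
  obtain ⟨p, hp⟩ := CharP.exists F
  have hpp : p.Prime := CharP.char_is_prime F p
  obtain ⟨D, hD⟩ := exists_pow_lt_of_lt_one (show (0 : ℝ) < ε / 12 by positivity)
    (show (1 / 2 : ℝ) < 1 by norm_num)
  refine ⟨D, p * D + 1, ?_⟩
  intro n hn
  have h4 := count_real h2 h3 p hpp.two_le n D (by omega) (by omega)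
  have h5 := reduce h3 n D
  have h6 : (({f ∈ Fam F n | ∃ P : F[X], P.Monic ∧ Irreducible P ∧ D < P.natDegree ∧
      P ^ 2 ∣ disc f.1 f.2.1 f.2.2} : Set (F[X] × F[X] × F[X])).ncard : ℝ) ≤
      (Nat.card F : ℝ) ^ (2 * n + 1) * ((Bad F n D).ncard : ℝ) := by exact_mod_cast h5
  refine h6.trans ?_
  have hq0 : (0 : ℝ) ≤ (Nat.card F : ℝ) := Nat.cast_nonneg _
  have h7 : (Nat.card F : ℝ) ^ (12 * n + 3) =
      (Nat.card F : ℝ) ^ (2 * n + 1) * (Nat.card F : ℝ) ^ (10 * n + 2) := by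
    rw [← pow_add]
    congr 1
    omega
  calc (Nat.card F : ℝ) ^ (2 * n + 1) * ((Bad F n D).ncard : ℝ)
      ≤ (Nat.card F : ℝ) ^ (2 * n + 1) *
        (12 * (1 / 2) ^ D * (Nat.card F : ℝ) ^ (10 * n + 2)) :=
        mul_le_mul_of_nonneg_left h4 (by positivity)
    _ = (12 * (1 / 2) ^ D) * (Nat.card F : ℝ) ^ (12 * n + 3) := by rw [h7]; ring
    _ ≤ ε * (Nat.card F : ℝ) ^ (12 * n + 3) := by
        refine mul_le_mul_of_nonneg_right ?_ (by positivity)
        linarith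

end Pool.AVR
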